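import Pool.Agent.Y347.CO.Stm

set_option autoImplicit false

/-! # Baker-Pixley -/

namespace Pool.Agent.Y48.CO.BP

open Finset Function Pool.Agent.Y347.CO

theorem done : Pool.Agent.Y347.CO.S_BP := by
  intro ι _ _ D _ _ r A f hnu hcl w hw
  have claim : ∀ (n : ℕ) (K : Finset ι), K.card = n → ∃ a ∈ A, ∀ j ∈ K, a j = w j := by
    intro n
    induction n using Nat.strong_induction_on with
    | _ n ih =>
      intro K hK
      by_cases h : K.card ≤ r
      · exact hw K h
      · push Not at h
        obtain ⟨K', hK', hc⟩ := Finset.exists_subset_card_eq (show r + 1 ≤ K.card by omega)
        let e : Fin (r + 1) ≃ K' := (Finset.equivFinOfCardEq hc).symm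
        have ha : ∀ l : Fin (r + 1), ∃ a ∈ A, ∀ j ∈ K.erase (e l), a j = w j := fun l =>
          ih (K.card - 1) (by omega) (K.erase (e l)) (by
            rw [Finset.card_erase_of_mem (hK' (e l).2)])
        choose a ha1 ha2 using ha
        refine ⟨fun i => f i fun l => a l i, hcl a ha1, fun j hj => ?_⟩
        by_cases hj' : ∃ l, (e l : ι) = j
        · obtain ⟨l, hl⟩ := hj'
          have h1 : (fun l' => a l' j) = update (fun _ => w j) l (a l j) := by
            funext l'
            by_cases hll : l' = l
            · subst hll
              rw [update_self]
            · rw [update_of_ne hll]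
              apply ha2 l' j
              rw [Finset.mem_erase]
              refine ⟨fun h => hll (e.injective (Subtype.ext ?_)), hj⟩
              rw [← h, hl]
          change f j (fun l' => a l' j) = w j
          rw [h1, hnu]
        · push Not at hj'
          have h1 : (fun l' => a l' j) = update (fun _ => w j) 0 (w j) := by
            funext l'
            have h2 : a l' j = w j := by
              apply ha2 l' j
              rw [Finset.mem_erase]
              exact ⟨fun h => hj' l' h.symm, hj⟩
            by_cases hll : l' = 0
            · subst hll
              rw [update_self, h2]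
            · rw [update_of_ne hll, h2]
          change f j (fun l' => a l' j) = w j
          rw [h1, hnu]
  obtain ⟨a, ha, h⟩ := claim _ univ rfl
  have h1 : a = w := funext fun j => h j (mem_univ j)
  rwa [← h1]

end Pool.Agent.Y48.CO.BP
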