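import Pool.Agent.Y347.CO.Stm

set_option autoImplicit false

/-! # Corner-free sets closed under `a + b + c` -/

namespace Pool.Agent.Y48.CO.AffC

open Finset Function Pool.Agent.Y347.CO

theorem done : Pool.Agent.Y347.CO.S_AFFC := by
  intro n A hcf hcl
  classical
  rcases A.eq_empty_or_nonempty with rfl | ⟨a0, ha0⟩
  · simp
  have hV : ∀ x : Fin n → ZMod 2, x + x = 0 := fun x => ZModModule.add_self x
  have hVV : ∀ x : (Fin n → ZMod 2) × (Fin n → ZMod 2), x + x = 0 := fun x => ZModModule.add_self x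
  set W := A.image (fun a => a + a0) with hW
  have hWc : W.card = A.card := Finset.card_image_of_injective _ (add_left_injective a0)
  have memW : ∀ w, w ∈ W ↔ w + a0 ∈ A := by
    intro w
    rw [hW, mem_image]
    constructor
    · rintro ⟨a, ha, rfl⟩
      rw [add_assoc, hVV, add_zero]
      exact ha
    · intro h
      exact ⟨w + a0, h, by rw [add_assoc, hVV, add_zero]⟩
  have hW0 : (0 : (Fin n → ZMod 2) × (Fin n → ZMod 2)) ∈ W := by
    rw [memW, zero_add]; exact ha0
  have hWadd : ∀ w ∈ W, ∀ w' ∈ W, w + w' ∈ W := by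
    intro w hw w' hw'
    rw [memW] at hw hw' ⊢
    have h := hcl _ hw _ hw' _ ha0
    have e : w + a0 + (w' + a0) + a0 = w + w' + a0 := by
      have : w + a0 + (w' + a0) + a0 = w + w' + a0 + (a0 + a0) := by abel
      rw [this, hVV, add_zero]
    rwa [e] at h
  have hWcf : ∀ x y z : Fin n → ZMod 2, (x, y) ∈ W → (x, y + z) ∈ W → (x + z, y) ∈ W → z = 0 := by
    intro x y z h1 h2 h3
    rw [memW] at h1 h2 h3
    refine hcf (x + a0.1) (y + a0.2) z h1 ?_ ?_
    · have e : ((x + a0.1, y + a0.2 + z) : (Fin n → ZMod 2) × (Fin n → ZMod 2)) = (x, y + z) + a0 := by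
        refine Prod.ext rfl ?_
        change y + a0.2 + z = y + z + a0.2
        abel
      rw [e]; exact h2
    · have e : ((x + a0.1 + z, y + a0.2) : (Fin n → ZMod 2) × (Fin n → ZMod 2)) = (x + z, y) + a0 := by
        refine Prod.ext ?_ rfl
        change x + a0.1 + z = x + z + a0.1
        abel
      rw [e]; exact h3
  set W1 := (univ : Finset (Fin n → ZMod 2)).filter (fun x => (x, (0 : Fin n → ZMod 2)) ∈ W) with hW1
  set W2 := (univ : Finset (Fin n → ZMod 2)).filter (fun y => ((0 : Fin n → ZMod 2), y) ∈ W) with hW2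
  have mem1 : ∀ x, x ∈ W1 ↔ (x, (0 : Fin n → ZMod 2)) ∈ W := fun x => by
    rw [hW1, mem_filter]; exact ⟨fun h => h.2, fun h => ⟨mem_univ _, h⟩⟩
  have mem2 : ∀ x, x ∈ W2 ↔ ((0 : Fin n → ZMod 2), x) ∈ W := fun x => by
    rw [hW2, mem_filter]; exact ⟨fun h => h.2, fun h => ⟨mem_univ _, h⟩⟩
  have add1 : ∀ x ∈ W1, ∀ x' ∈ W1, x + x' ∈ W1 := by
    intro x hx x' hx'
    rw [mem1] at hx hx' ⊢
    have := hWadd _ hx _ hx'
    rwa [Prod.mk_add_mk, add_zero] at this
  have add2 : ∀ x ∈ W2, ∀ x' ∈ W2, x + x' ∈ W2 := by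
    intro x hx x' hx'
    rw [mem2] at hx hx' ⊢
    have := hWadd _ hx _ hx'
    rwa [Prod.mk_add_mk, add_zero] at this
  have h12 : ∀ z, z ∈ W1 → z ∈ W2 → z = 0 := by
    intro z h1 h2
    rw [mem1] at h1
    rw [mem2] at h2
    exact hWcf 0 0 z hW0 (by rw [zero_add]; exact h2) (by rw [zero_add]; exact h1)
  have hcardV : Fintype.card (Fin n → ZMod 2) = 2 ^ n := by
    rw [Fintype.card_fun, ZMod.card, Fintype.card_fin]
  have hprod : W1.card * W2.card ≤ 2 ^ n := by
    rw [← Finset.card_product, ← hcardV, ← Finset.card_univ]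
    refine Finset.card_le_card_of_injOn (fun p => p.1 + p.2) (fun p _ => mem_coe.2 (mem_univ _)) ?_
    intro p hp p' hp' h
    rw [mem_coe, mem_product] at hp hp'
    simp only at h
    have e : p.1 + p'.1 = p.2 + p'.2 := by
      have e1 : p.1 + p'.1 = (p.1 + p.2) + (p.2 + p'.1) := by
        have : (p.1 + p.2) + (p.2 + p'.1) = p.1 + p'.1 + (p.2 + p.2) := by abel
        rw [this, hV, add_zero]
      rw [e1, h]
      have : (p'.1 + p'.2) + (p.2 + p'.1) = p.2 + p'.2 + (p'.1 + p'.1) := by abel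
      rw [this, hV, add_zero]
    have e1 := h12 (p.1 + p'.1) (add1 _ hp.1 _ hp'.1) (by rw [e]; exact add2 _ hp.2 _ hp'.2)
    have e2 : p.2 + p'.2 = 0 := by rw [← e, e1]
    have key : ∀ x y : Fin n → ZMod 2, x + y = 0 → x = y := by
      intro x y hxy
      have : x + y + y = y := by rw [hxy, zero_add]
      rwa [add_assoc, hV, add_zero] at this
    exact Prod.ext (key _ _ e1) (key _ _ e2)
  have hb1 : W.card ≤ W1.card * 2 ^ n := by
    refine (Finset.card_le_mul_card_image (f := Prod.snd) W W1.card fun b hb => ?_).trans ?_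
    · obtain ⟨w0, hw0, rfl⟩ := mem_image.1 hb
      refine Finset.card_le_card_of_injOn (fun w => w.1 + w0.1) ?_ ?_
      · intro w hw
        obtain ⟨h1, h2⟩ := mem_filter.1 (mem_coe.1 hw)
        rw [mem_coe, mem1]
        have h3 := hWadd _ h1 _ hw0
        have e : w + w0 = (w.1 + w0.1, 0) := by
          refine Prod.ext rfl ?_
          change w.2 + w0.2 = 0
          rw [h2, hV]
        rwa [e] at h3
      · intro w hw w' hw' h
        obtain ⟨-, h2⟩ := mem_filter.1 (mem_coe.1 hw)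
        obtain ⟨-, h2'⟩ := mem_filter.1 (mem_coe.1 hw')
        exact Prod.ext (add_left_injective _ h) (h2.trans h2'.symm)
    · refine Nat.mul_le_mul_left _ ?_
      rw [← hcardV]
      exact Finset.card_le_univ _
  have hb2 : W.card ≤ W2.card * 2 ^ n := by
    refine (Finset.card_le_mul_card_image (f := Prod.fst) W W2.card fun b hb => ?_).trans ?_
    · obtain ⟨w0, hw0, rfl⟩ := mem_image.1 hb
      refine Finset.card_le_card_of_injOn (fun w => w.2 + w0.2) ?_ ?_
      · intro w hw
        obtain ⟨h1, h2⟩ := mem_filter.1 (mem_coe.1 hw)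
        rw [mem_coe, mem2]
        have h3 := hWadd _ h1 _ hw0
        have e : w + w0 = (0, w.2 + w0.2) := by
          refine Prod.ext ?_ rfl
          change w.1 + w0.1 = 0
          rw [h2, hV]
        rwa [e] at h3
      · intro w hw w' hw' h
        obtain ⟨-, h2⟩ := mem_filter.1 (mem_coe.1 hw)
        obtain ⟨-, h2'⟩ := mem_filter.1 (mem_coe.1 hw')
        exact Prod.ext (h2.trans h2'.symm) (add_left_injective _ h)
    · refine Nat.mul_le_mul_left _ ?_
      rw [← hcardV]
      exact Finset.card_le_univ _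
  rw [← hWc]
  calc W.card ^ 2 = W.card * W.card := sq _
    _ ≤ (W1.card * 2 ^ n) * (W2.card * 2 ^ n) := Nat.mul_le_mul hb1 hb2
    _ = (W1.card * W2.card) * (2 ^ n * 2 ^ n) := by ring
    _ ≤ 2 ^ n * (2 ^ n * 2 ^ n) := Nat.mul_le_mul_right _ hprod
    _ = 8 ^ n := by
        rw [← mul_pow, ← mul_pow]
        norm_num

end Pool.Agent.Y48.CO.AffC
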