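import Pool.Agent.Y347.CO.Stm

set_option autoImplicit false

/-! # A large corner-free set closed under all coordinatewise operations -/

namespace Pool.Agent.Y48.CO.Sharp

open Finset Function Pool.Agent.Y347.CO

theorem done : Pool.Agent.Y347.CO.S_SHARP := by
  intro m
  classical
  let lo : Fin m → Fin (2 * m) := fun i => ⟨i, by omega⟩
  let hi : Fin m → Fin (2 * m) := fun i => ⟨m + i, by omega⟩
  have hcase : ∀ j : Fin (2 * m), (∃ i, j = lo i) ∨ ∃ i, j = hi i := by
    intro j
    by_cases h : (j : ℕ) < m
    · exact Or.inl ⟨⟨j, h⟩, Fin.ext rfl⟩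
    · refine Or.inr ⟨⟨(j : ℕ) - m, by omega⟩, Fin.ext ?_⟩
      change (j : ℕ) = m + ((j : ℕ) - m)
      omega
  refine ⟨univ.filter fun p => ∀ i : Fin m, p.1 (lo i) = p.2 (hi i), ?_, ?_, ?_⟩
  · intro x y z h1 h2 h3
    simp only [mem_filter, mem_univ, true_and, Pi.add_apply] at h1 h2 h3
    funext j
    rcases hcase j with ⟨i, rfl⟩ | ⟨i, rfl⟩
    · have e1 := h1 i
      have e3 := h3 i
      rw [← e1] at e3
      exact left_eq_add.1 e3.symm
    · have e1 := h1 i
      have e2 := h2 i
      rw [e1] at e2
      exact left_eq_add.1 e2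
  · intro k f a ha
    simp only [mem_filter, mem_univ, true_and] at ha ⊢
    intro i
    exact congrArg f (funext fun l => ha l i)
  · have h1 : (univ.filter fun p : (Fin (2 * m) → ZMod 2) × (Fin (2 * m) → ZMod 2) =>
        ∀ i : Fin m, p.1 (lo i) = p.2 (hi i)).card =
        (univ : Finset ((Fin (2 * m) → ZMod 2) × (Fin m → ZMod 2))).card := by
      refine Finset.card_nbij' (fun p => (p.1, fun k => p.2 (lo k)))
        (fun p => (p.1, fun t => if h : (t : ℕ) < m then p.2 ⟨t, h⟩ else
          p.1 ⟨(t : ℕ) - m, by omega⟩)) ?_ ?_ ?_ ?_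
      · intro p _
        exact mem_coe.2 (mem_univ _)
      · intro p _
        rw [mem_coe, mem_filter]
        refine ⟨mem_univ _, fun i => ?_⟩
        have h2 : ¬ ((hi i : Fin (2 * m)) : ℕ) < m := by
          change ¬ (m + (i : ℕ) < m)
          omega
        simp only [dif_neg h2]
        refine congrArg p.1 (Fin.ext ?_)
        change (i : ℕ) = m + (i : ℕ) - m
        omega
      · intro p hp
        rw [mem_coe, mem_filter] at hp
        refine Prod.ext rfl ?_
        funext t
        by_cases h : (t : ℕ) < m
        · simp only [dif_pos h]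
          rfl
        · simp only [dif_neg h]
          have h3 := hp.2 ⟨(t : ℕ) - m, by omega⟩
          refine Eq.trans ?_ (h3.trans ?_)
          · rfl
          · refine congrArg p.2 (Fin.ext ?_)
            change m + ((t : ℕ) - m) = t
            omega
      · intro p _
        refine Prod.ext rfl ?_
        funext k
        have h2 : ((lo k : Fin (2 * m)) : ℕ) < m := k.2
        simp only [dif_pos h2]
        rfl
    rw [h1, card_univ, Fintype.card_prod, Fintype.card_fun, Fintype.card_fun, ZMod.card,
      Fintype.card_fin, Fintype.card_fin, pow_mul, ← mul_pow]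
    norm_num

end Pool.Agent.Y48.CO.Sharp
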